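import Pool.Agent.Lib.Pa698a1.Correct

/-!
Recognising ABA-free hypergraphs is possible in polynomial time.
-/

namespace Pool.Agent.Results.MP_a698a1_lc.PolynomialTime

open Pool.Agent.Lib.Pa698a1 Pool.Agent.Lib.PolyTime

/-- The language of ABA-free hypergraphs is in P. -/
theorem result : InP ABAFreeLanguage := by
  classical
  have h := PolyC.toTM2 (α := List Bool) (γ := Bool) id (D := fun _ => True) abaB
    Computability.encodeBool
    ((poly_abaB (D := fun _ => True) (ctx := [id]) (w := id) (PolyC.var (by simp))).congr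
      (fun _ _ => rfl))
  obtain ⟨⟨tm, time, hout⟩⟩ := h
  refine ⟨⟨tm, time, fun w => ?_⟩⟩
  have e : decide (w ∈ ABAFreeLanguage) = abaB w := by
    rw [Bool.eq_iff_iff, decide_eq_true_eq, abaB_iff]
    exact Iff.rfl
  rw [e]
  exact hout ⟨w, trivial⟩

end Pool.Agent.Results.MP_a698a1_lc.PolynomialTime
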